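import Pool.Agent.U363.PV.B
import Pool.Agent.N965.LN.Sch
import Pool.Agent.N965.LN.Log

set_option autoImplicit false

/-!
# Values of real polynomials with one algebraic coefficient (helper363)

Roth's theorem for one number; the function `1 / (q log q)`.
-/

open Finset

namespace Pool.Agent.U363.PV

open Pool.Agent.N965.LN (dn)
open Pool.Agent.N965

theorem indep_one {ξ : ℝ} (hξ : Irrational ξ) : LN.Indep (fun _ : Fin 1 => ξ) := by
  intro a a₀ h
  rw [Fin.sum_univ_one] at h
  funext i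
  have hi : i = 0 := Subsingleton.elim _ _
  rw [hi]
  by_contra h0
  have h1 : a 0 ≠ 0 := h0
  have h2 : ((a 0 : ℤ) : ℝ) ≠ 0 := by exact_mod_cast h1
  apply hξ
  refine ⟨-(a₀ : ℚ) / (a 0 : ℚ), ?_⟩
  push_cast
  rw [div_eq_iff h2]
  linarith

theorem roth {ξ : ℝ} (hξ : Irrational ξ) (ha : IsAlgebraic ℚ ξ) : ∃ c₁ : ℝ, 0 < c₁ ∧ Rt ξ c₁ := by
  obtain ⟨c, hc, h⟩ := LN.t_SCH 1 (fun _ => ξ) le_rfl (fun _ => ha) (indep_one hξ) 1 one_pos
  refine ⟨c, hc, fun n hn => ?_⟩
  have h1 := h n hn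
  rw [Fin.prod_univ_one] at h1
  refine le_trans (le_of_eq ?_) h1
  have hn0 : (0 : ℝ) < n := by exact_mod_cast hn
  rw [Real.rpow_neg hn0.le, show (1 : ℝ) + 1 = ((2 : ℕ) : ℝ) by norm_num, Real.rpow_natCast]
  rfl

/-- `1 / (q log q)` is not summable (helper890, in `ElementsOfCosets`) -/
theorem not_summable (c : ℝ) (hc : 0 < c) : ¬ Summable fun q => c * LN.lang 0 q := by
  intro h
  have h1 : Summable (LN.lang 0) := (summable_mul_left_iff hc.ne').1 h
  have ha : ∀ ⦃m n : ℕ⦄, 0 < m → m ≤ n → LN.lang 0 n ≤ LN.lang 0 m := by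
    intro m n _ hmn
    unfold LN.lang
    have h1 := LN.log_max_pos m
    have h2 := LN.max_pos m
    have h3 : ((max m 2 : ℕ) : ℝ) ≤ ((max n 2 : ℕ) : ℝ) := by
      have : max m 2 ≤ max n 2 := by omega
      exact_mod_cast this
    apply one_div_le_one_div_of_le (by positivity)
    refine mul_le_mul h3 ?_ (by positivity) (by positivity)
    exact Real.rpow_le_rpow h1.le (Real.log_le_log h2 h3) (by linarith)
  rw [← summable_condensed_iff_of_nonneg (LN.lang_nonneg 0) ha] at h1
  have h2 := (summable_nat_add_iff 1).2 h1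
  have hl : (0 : ℝ) < Real.log 2 := Real.log_pos (by norm_num)
  have h3 : Summable fun k : ℕ => 1 / (((k + 1 : ℕ) : ℝ)) := by
    refine ((summable_mul_left_iff hl.ne').2 h2).congr fun k => ?_
    have e1 : max (2 ^ (k + 1)) 2 = 2 ^ (k + 1) := by
      have : (2 : ℕ) ^ 1 ≤ 2 ^ (k + 1) := Nat.pow_le_pow_right (by norm_num) (by omega)
      omega
    unfold LN.lang
    rw [e1]
    push_cast
    rw [Real.log_pow, add_zero, Real.rpow_one]
    push_cast
    have e2 : (0 : ℝ) < (2 : ℝ) ^ (k + 1) := by positivity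
    field_simp
  exact Real.not_summable_one_div_natCast ((summable_nat_add_iff 1).1 h3)

theorem lang_anti' (c : ℝ) (hc : 0 < c) : Antitone fun q => c * LN.lang 0 q := by
  intro m n hmn
  refine mul_le_mul_of_nonneg_left ?_ hc.le
  unfold LN.lang
  have h1 := LN.log_max_pos m
  have h2 := LN.max_pos m
  have h3 : ((max m 2 : ℕ) : ℝ) ≤ ((max n 2 : ℕ) : ℝ) := by
    have : max m 2 ≤ max n 2 := by omega
    exact_mod_cast this
  apply one_div_le_one_div_of_le (by positivity)
  refine mul_le_mul h3 ?_ (by positivity) (by positivity)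
  exact Real.rpow_le_rpow h1.le (Real.log_le_log h2 h3) (by linarith)

end Pool.Agent.U363.PV
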