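import Pool.Agent.U867.PM.Exp
import Pool.Agent.U471.DQ.Weyl

set_option autoImplicit false

/-!
# Values of real polynomials with one algebraic coefficient (helper363)

Weyl sums, Fejér majorant, one denominator.
-/

open Finset Polynomial

namespace Pool.Agent.U363.PV

open Pool.Agent.N965.LN (dn)
open Pool.Agent.N965.LN.Fej (e e_add e_neg norm_e D D_le)
open Pool.Agent.Helper602.MK (ee)

theorem e_eq (x : ℝ) : ee x = e x := by
  unfold ee e
  congr 1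
  push_cast
  ring

/-- Roth's theorem for `ξ` with the exponent `2` for `‖n ξ‖` -/
def Rt (ξ c₁ : ℝ) : Prop := ∀ n : ℕ, 1 ≤ n → c₁ / (n : ℝ) ^ 2 ≤ dn ((n : ℝ) * ξ)

/-- the Weyl sums of all real polynomials of degree at most `d` with the coefficient `A ξ + B` at
`j` -/
def Wy (d j : ℕ) (ξ δ : ℝ) (N₁ : ℕ) : Prop :=
  ∀ P : ℝ[X], P.natDegree ≤ d → ∀ A B : ℤ, A ≠ 0 → P.coeff j = A * ξ + B → ∀ N : ℕ, N₁ ≤ N →
    ∀ m : ℤ, m ≠ 0 → |(m : ℝ)| * |(A : ℝ)| ≤ (N : ℝ) ^ (1 / 4 : ℝ) →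
    ‖∑ n ∈ range N, e ((m : ℝ) * P.eval (n : ℝ))‖ ≤ (N : ℝ) ^ (1 - δ)

theorem dn_le_abs (r : ℕ) (m : ℤ) (ξ : ℝ) (a : ℤ) :
    dn ((((r : ℤ) * m).natAbs : ℝ) * ξ) ≤ |(r : ℝ) * ((m : ℝ) * ξ) - a| := by
  unfold dn
  have h1 : ((((r : ℤ) * m).natAbs : ℕ) : ℝ) = |(r : ℝ) * (m : ℝ)| := by
    rw [Nat.cast_natAbs]
    push_cast
    rfl
  rw [h1]
  rcases abs_choice ((r : ℝ) * (m : ℝ)) with h | h
  · rw [h]
    have h2 := round_le ((r : ℝ) * (m : ℝ) * ξ) a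
    rw [← mul_assoc]
    exact h2
  · rw [h]
    have h2 := round_le (-((r : ℝ) * (m : ℝ)) * ξ) (-a)
    refine h2.trans (le_of_eq ?_)
    rw [← abs_neg]
    congr 1
    push_cast
    ring

theorem weyl (d : ℕ) (hd : 1 ≤ d) : ∃ δ : ℝ, 0 < δ ∧ δ ≤ 1 / 12 ∧ ∀ ξ c₁ : ℝ, 0 < c₁ → Rt ξ c₁ →
    ∃ N₁ : ℕ, 1 ≤ N₁ ∧ ∀ j : ℕ, 1 ≤ j → j ≤ d → Wy d j ξ δ N₁ := by
  obtain ⟨c, k, hc, H⟩ := Pool.Agent.U471.DQ.IA_all d hd
  have hk0 : (0 : ℝ) < (k : ℝ) + 1 := by positivity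
  refine ⟨1 / (12 * ((k : ℝ) + 1)), by positivity, ?_, fun ξ c₁ hc₁ hR => ?_⟩
  · apply div_le_div_of_nonneg_left (by norm_num) (by norm_num)
    have : (0 : ℝ) ≤ k := by positivity
    linarith
  set δ : ℝ := 1 / (12 * ((k : ℝ) + 1)) with hδ
  have hδ0 : 0 < δ := by positivity
  obtain ⟨N₀, hN₀⟩ := exists_nat_gt (((c : ℝ) ^ 3 / c₁ + 1) ^ 4)
  refine ⟨N₀ + 1, by omega, fun j hj1 hj2 P hP A B hA hPj N hN m hm hmN => ?_⟩
  by_contra hcon
  push Not at hcon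
  have hN1 : (1 : ℝ) ≤ N := by exact_mod_cast (by omega : 1 ≤ N)
  have hN0 : (0 : ℝ) < N := by linarith
  have hc0 : (1 : ℝ) ≤ c := by exact_mod_cast hc
  set x : ℝ := (N : ℝ) ^ (1 / 4 : ℝ) with hx
  have hx0 : 0 < x := by positivity
  have hx4 : x ^ 4 = N := by
    rw [hx, ← Real.rpow_natCast, ← Real.rpow_mul hN0.le]
    norm_num
  have hxc : (c : ℝ) ^ 3 / c₁ < x := by
    by_contra h
    push Not at h
    have h1 : x ^ 4 ≤ ((c : ℝ) ^ 3 / c₁ + 1) ^ 4 := by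
      apply pow_le_pow_left₀ hx0.le
      linarith
    have h2 : (N₀ : ℝ) ≤ N := by exact_mod_cast (by omega : N₀ ≤ N)
    rw [hx4] at h1
    linarith
  set u : ℝ := (N : ℝ) ^ δ with hu
  have hu1 : 1 ≤ u := Real.one_le_rpow hN1 hδ0.le
  have hu0 : 0 < u := by linarith
  have huk : u ^ (3 * k) ≤ x := by
    rw [hu, hx, ← Real.rpow_natCast, ← Real.rpow_mul hN0.le]
    apply Real.rpow_le_rpow_of_exponent_le hN1
    rw [hδ]
    push_cast
    rw [div_mul_eq_mul_div, div_le_div_iff₀ (by positivity) (by norm_num)]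
    have : (0 : ℝ) ≤ k := by positivity
    linarith
  have hS : (N : ℝ) ≤ u * ‖∑ n ∈ range N, ee ((C (m : ℝ) * P).eval (n : ℝ))‖ := by
    have h1 : (N : ℝ) = u * (N : ℝ) ^ (1 - δ) := by
      rw [hu, ← Real.rpow_add hN0]
      simp
    have h2 : ∑ n ∈ range N, ee ((C (m : ℝ) * P).eval (n : ℝ)) =
        ∑ n ∈ range N, e ((m : ℝ) * P.eval (n : ℝ)) := by
      refine sum_congr rfl fun n _ => ?_
      rw [e_eq, eval_mul, eval_C]
    rw [h2]
    calc (N : ℝ) = u * (N : ℝ) ^ (1 - δ) := h1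
      _ ≤ _ := mul_le_mul_of_nonneg_left hcon.le hu0.le
  obtain ⟨r, hr1, hr2, hj⟩ := H N u (C (m : ℝ) * P) (by omega) hu1
    ((natDegree_C_mul_le _ _).trans hP) hS
  obtain ⟨a, ha⟩ := hj j hj1 hj2
  rw [coeff_C_mul, hPj] at ha
  set n : ℕ := ((r : ℤ) * (m * A)).natAbs with hn
  have hn1 : 1 ≤ n := by
    rw [hn, Nat.one_le_iff_ne_zero, Ne, Int.natAbs_eq_zero]
    apply mul_ne_zero _ (mul_ne_zero hm hA)
    exact_mod_cast (by omega : r ≠ 0)
  have hn0 : (0 : ℝ) < n := by exact_mod_cast hn1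
  have hnr : (n : ℝ) = r * (|(m : ℝ)| * |(A : ℝ)|) := by
    rw [hn, Nat.cast_natAbs]
    push_cast
    rw [abs_mul, abs_mul]
    congr 1
    exact abs_of_nonneg (by positivity)
  have h1 := (hR n hn1).trans (dn_le_abs r (m * A) ξ (a - r * m * B))
  have h2 : c₁ / (n : ℝ) ^ 2 ≤ c * u ^ k / (N : ℝ) ^ j := by
    refine h1.trans (le_trans (le_of_eq ?_) ha)
    congr 1
    push_cast
    ring
  have h3 : (c : ℝ) * u ^ k / (N : ℝ) ^ j ≤ c * u ^ k / N := by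
    apply div_le_div_of_nonneg_left (by positivity) hN0
    calc (N : ℝ) = (N : ℝ) ^ 1 := (pow_one _).symm
      _ ≤ (N : ℝ) ^ j := pow_le_pow_right₀ hN1 hj1
  have h4 := h2.trans h3
  rw [div_le_div_iff₀ (by positivity) hN0] at h4
  have hnle : (n : ℝ) ≤ c * u ^ k * x := by
    rw [hnr]
    exact mul_le_mul hr2 hmN (by positivity) (by positivity)
  have h5 : (c : ℝ) * u ^ k * (n : ℝ) ^ 2 ≤ c * u ^ k * (c * u ^ k * x) ^ 2 := by
    apply mul_le_mul_of_nonneg_left _ (by positivity)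
    exact pow_le_pow_left₀ hn0.le hnle 2
  have h6 : (c : ℝ) * u ^ k * (c * u ^ k * x) ^ 2 = (c : ℝ) ^ 3 * u ^ (3 * k) * x ^ 2 := by
    rw [pow_mul' u 3 k]
    ring
  have h7 : (c : ℝ) ^ 3 * u ^ (3 * k) * x ^ 2 ≤ (c : ℝ) ^ 3 * x * x ^ 2 := by
    apply mul_le_mul_of_nonneg_right _ (by positivity)
    exact mul_le_mul_of_nonneg_left huk (by positivity)
  have h8 : c₁ * x ^ 4 ≤ (c : ℝ) ^ 3 * x * x ^ 2 := by
    rw [hx4]
    exact h4.trans (h5.trans (h6.le.trans h7))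
  have h9 : c₁ * x ≤ (c : ℝ) ^ 3 := by
    have h10 : c₁ * x * x ^ 3 ≤ (c : ℝ) ^ 3 * x ^ 3 := by nlinarith
    exact le_of_mul_le_mul_right h10 (by positivity)
  rw [div_lt_iff₀ hc₁] at hxc
  linarith

/-- the Fejér majorant -/
theorem fejer (V N : ℕ) (hV : 1 ≤ V) (t : ℕ → ℝ) (B : ℝ) (hB : 0 ≤ B)
    (h : ∀ m : ℤ, m ≠ 0 → |(m : ℝ)| ≤ V → ‖∑ n ∈ range N, e ((m : ℝ) * t n)‖ ≤ B) :
    (((range N).filter (fun n => dn (t n) ≤ 1 / (2 * (V : ℝ)))).card : ℝ) ≤ 3 * (N / V + B) := by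
  have hV' : (0 : ℝ) < V := by exact_mod_cast hV
  have h1 : (((range N).filter (fun n => dn (t n) ≤ 1 / (2 * (V : ℝ)))).card : ℝ) ≤
      ∑ n ∈ range N, Pool.Agent.U867.PM.W V (t n) := by
    rw [card_eq_sum_ones]
    push_cast
    refine (sum_le_sum fun n hn => Pool.Agent.U867.PM.W_ge hV (mem_filter.1 hn).2).trans ?_
    exact sum_le_sum_of_subset_of_nonneg (filter_subset _ _)
      fun n _ _ => Pool.Agent.U867.PM.W_nonneg V (t n)
  have h2 : ((∑ n ∈ range N, ‖D V (t n)‖ ^ 2 : ℝ) : ℂ) =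
      ∑ k ∈ range V, ∑ l ∈ range V, ∑ n ∈ range N, e ((((k : ℤ) - (l : ℤ) : ℤ) : ℝ) * t n) := by
    have h3 : ∀ n, ((‖D V (t n)‖ ^ 2 : ℝ) : ℂ) =
        ∑ k ∈ range V, ∑ l ∈ range V, e ((((k : ℤ) - (l : ℤ) : ℤ) : ℝ) * t n) := by
      intro n
      push_cast
      rw [← Complex.mul_conj']
      unfold D
      rw [map_sum, sum_mul_sum]
      refine sum_congr rfl fun k _ => sum_congr rfl fun l _ => ?_
      rw [← e_neg, ← e_add]
      congr 1
      push_cast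
      ring
    push_cast at h3 ⊢
    rw [sum_congr rfl fun n _ => h3 n]
    rw [sum_comm]
    refine sum_congr rfl fun k _ => ?_
    rw [sum_comm]
  have h4 : ∑ n ∈ range N, ‖D V (t n)‖ ^ 2 ≤ V * N + (V : ℝ) ^ 2 * B := by
    have h5 : (∑ n ∈ range N, ‖D V (t n)‖ ^ 2 : ℝ) =
        ‖((∑ n ∈ range N, ‖D V (t n)‖ ^ 2 : ℝ) : ℂ)‖ := by
      rw [Complex.norm_real, Real.norm_of_nonneg]
      positivity
    rw [h5, h2]
    have h6 : ∀ k ∈ range V, ‖∑ l ∈ range V, ∑ n ∈ range N,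
        e ((((k : ℤ) - (l : ℤ) : ℤ) : ℝ) * t n)‖ ≤ N + V * B := by
      intro k hk
      rw [mem_range] at hk
      refine (norm_sum_le _ _).trans ?_
      have h7 : ∀ l ∈ range V, ‖∑ n ∈ range N, e ((((k : ℤ) - (l : ℤ) : ℤ) : ℝ) * t n)‖ ≤
          (if l = k then (N : ℝ) else 0) + B := by
        intro l hl
        rw [mem_range] at hl
        split_ifs with hlk
        · rw [hlk]
          have : ‖∑ n ∈ range N, e ((((k : ℤ) - (k : ℤ) : ℤ) : ℝ) * t n)‖ ≤ N := by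
            refine (norm_sum_le _ _).trans ?_
            simp [norm_e]
          linarith
        · rw [zero_add]
          apply h
          · omega
          · push_cast
            rw [abs_le]
            have e1 : (k : ℝ) ≤ V := by exact_mod_cast hk.le
            have e2 : (l : ℝ) ≤ V := by exact_mod_cast hl.le
            have e3 : (0 : ℝ) ≤ k := by positivity
            have e4 : (0 : ℝ) ≤ l := by positivity
            constructor <;> linarith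
      refine (sum_le_sum h7).trans (le_of_eq ?_)
      rw [sum_add_distrib, sum_ite_eq' (range V) k, if_pos (mem_range.2 hk)]
      simp
    refine (norm_sum_le _ _).trans ((sum_le_sum h6).trans (le_of_eq ?_))
    rw [sum_const, card_range, nsmul_eq_mul]
    ring
  refine h1.trans ?_
  have h5 : ∑ n ∈ range N, Pool.Agent.U867.PM.W V (t n) =
      Real.pi ^ 2 / (4 * (V : ℝ) ^ 2) * ∑ n ∈ range N, ‖D V (t n)‖ ^ 2 := by
    rw [mul_sum]
    rfl
  rw [h5]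
  have hpi : Real.pi ^ 2 ≤ 10 := by
    have h1 := Real.pi_lt_d4
    have h2 := Real.pi_pos
    nlinarith
  have h6 : (0 : ℝ) ≤ V * N + (V : ℝ) ^ 2 * B := by positivity
  calc Real.pi ^ 2 / (4 * (V : ℝ) ^ 2) * ∑ n ∈ range N, ‖D V (t n)‖ ^ 2
      ≤ Real.pi ^ 2 / (4 * (V : ℝ) ^ 2) * (V * N + (V : ℝ) ^ 2 * B) :=
        mul_le_mul_of_nonneg_left h4 (by positivity)
    _ ≤ 12 / (4 * (V : ℝ) ^ 2) * (V * N + (V : ℝ) ^ 2 * B) := by
        apply mul_le_mul_of_nonneg_right _ h6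
        apply div_le_div_of_nonneg_right _ (by positivity)
        linarith
    _ = 3 * (N / V + B) := by
        field_simp
        ring

/-- one denominator -/
theorem one_q {d j : ℕ} {ξ δ : ℝ} {N₁ : ℕ} (hW : Wy d j ξ δ N₁) (P : ℝ[X]) (hP : P.natDegree ≤ d)
    (A B : ℤ) (hA : A ≠ 0) (hPj : P.coeff j = A * ξ + B) (N : ℕ) (hN : N₁ ≤ N) (q : ℕ)
    (hq : 1 ≤ q) (ρ : ℝ) (hρ : 0 < ρ)
    (hqρ : (q : ℝ) / (2 * ρ) * |(A : ℝ)| ≤ (N : ℝ) ^ (1 / 4 : ℝ)) :
    (((range N).filter (fun n : ℕ => dn ((q : ℝ) * P.eval (n : ℝ)) ≤ ρ)).card : ℝ) ≤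
      12 * ρ * N + 3 * (N : ℝ) ^ (1 - δ) := by
  have hq' : (0 : ℝ) < q := by exact_mod_cast hq
  have hNn : (0 : ℝ) ≤ N := by positivity
  have hB : 0 ≤ (N : ℝ) ^ (1 - δ) := by positivity
  rcases le_or_gt ρ (1 / 2) with hρ2 | hρ2
  · have hx1 : (1 : ℝ) ≤ 1 / (2 * ρ) := by
      rw [le_div_iff₀ (by positivity)]
      linarith
    set V := ⌊1 / (2 * ρ)⌋₊ with hV
    have hV1 : 1 ≤ V := by
      rw [hV, Nat.le_floor_iff (by positivity)]
      exact_mod_cast hx1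
    have hV0 : (0 : ℝ) < V := by exact_mod_cast hV1
    have hVle : (V : ℝ) ≤ 1 / (2 * ρ) := Nat.floor_le (by positivity)
    have hVge : 1 / (2 * ρ) < V + 1 := Nat.lt_floor_add_one _
    have hVge' : 1 / (4 * ρ) ≤ V := by
      have h1 : (1 : ℝ) ≤ V := by exact_mod_cast hV1
      have h2 : 1 / (4 * ρ) = (1 / (2 * ρ)) / 2 := by
        field_simp
        norm_num
      rw [h2]
      linarith
    have h1 := fejer V N hV1 (fun n => (q : ℝ) * P.eval (n : ℝ)) _ hB (by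
      intro m hm hmV
      have h2 := hW P hP A B hA hPj N hN (m * q)
          (mul_ne_zero hm (by exact_mod_cast (by omega : q ≠ 0))) (by
        push_cast
        rw [abs_mul, abs_of_pos hq']
        refine le_trans (mul_le_mul_of_nonneg_right ?_ (abs_nonneg _)) hqρ
        calc |(m : ℝ)| * q ≤ 1 / (2 * ρ) * q :=
              mul_le_mul_of_nonneg_right (hmV.trans hVle) hq'.le
          _ = q / (2 * ρ) := by ring)
      refine le_trans (le_of_eq ?_) h2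
      congr 1
      refine sum_congr rfl fun n _ => ?_
      congr 1
      push_cast
      ring)
    have h2 : (((range N).filter (fun n : ℕ => dn ((q : ℝ) * P.eval (n : ℝ)) ≤ ρ)).card : ℝ) ≤
        (((range N).filter (fun n : ℕ => dn ((q : ℝ) * P.eval (n : ℝ)) ≤ 1 / (2 * (V : ℝ)))).card : ℝ) := by
      have h3 : ρ ≤ 1 / (2 * (V : ℝ)) := by
        rw [le_div_iff₀ (by positivity)]
        rw [le_div_iff₀ (by positivity)] at hVle
        linarith
      have h4 : (range N).filter (fun n : ℕ => dn ((q : ℝ) * P.eval (n : ℝ)) ≤ ρ) ⊆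
          (range N).filter (fun n : ℕ => dn ((q : ℝ) * P.eval (n : ℝ)) ≤ 1 / (2 * (V : ℝ))) := by
        intro n hn
        rw [mem_filter] at hn ⊢
        exact ⟨hn.1, hn.2.trans h3⟩
      exact_mod_cast card_le_card h4
    refine h2.trans (h1.trans ?_)
    have h3 : (N : ℝ) / V ≤ 4 * ρ * N := by
      rw [div_le_iff₀ hV0]
      rw [div_le_iff₀ (by positivity)] at hVge'
      nlinarith
    linarith
  · have h1 : (((range N).filter (fun n : ℕ => dn ((q : ℝ) * P.eval (n : ℝ)) ≤ ρ)).card : ℝ) ≤ N := by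
      have := card_filter_le (range N) (fun n : ℕ => dn ((q : ℝ) * P.eval (n : ℝ)) ≤ ρ)
      rw [card_range] at this
      exact_mod_cast this
    nlinarith

end Pool.Agent.U363.PV
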