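import Pool.Agent.U363.PV.A
import Pool.Agent.U890.LC.C

set_option autoImplicit false

/-!
# Values of real polynomials with one algebraic coefficient (helper363)

The convergence and the divergence part.
-/

open Finset Polynomial

namespace Pool.Agent.U363.PV

open Pool.Agent.N965.LN (dn)
open Pool.Agent.N965.LN.Fej (e)
open Pool.Agent.U890

/-- `|α - a / q| ≤ c ψ(q) / q` for some `a` and some `1 ≤ q ≤ Y` -/
def Exc (Y c : ℝ) (ψ : ℕ → ℝ) (α : ℝ) : Prop :=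
  ∃ (a : ℤ) (q : ℕ), 1 ≤ q ∧ (q : ℝ) ≤ Y ∧ |α - (a : ℝ) / q| ≤ c * ψ q / q

theorem exc_dn {Y c : ℝ} {ψ : ℕ → ℝ} {α : ℝ} (h : Exc Y c ψ α) :
    ∃ q : ℕ, 1 ≤ q ∧ (q : ℝ) ≤ Y ∧ dn ((q : ℝ) * α) ≤ c * ψ q := by
  obtain ⟨a, q, h1, h2, h3⟩ := h
  refine ⟨q, h1, h2, ?_⟩
  have hq : (0 : ℝ) < q := by exact_mod_cast h1
  unfold dn
  refine (round_le _ a).trans ?_
  have h4 : (q : ℝ) * α - a = q * (α - (a : ℝ) / q) := by
    field_simp
  rw [h4, abs_mul, abs_of_pos hq]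
  rw [le_div_iff₀ hq] at h3
  linarith

open scoped Classical in
theorem conv {d j : ℕ} {ξ δ : ℝ} {N₁ : ℕ} (hW : Wy d j ξ δ N₁) (κ : ℝ)
    (hκ0 : 0 < κ) (hκ1 : κ ≤ 1 / 40) (hκ2 : 2 * κ ≤ δ) (ψ : ℕ → ℝ) (hψ0 : ∀ n, 0 ≤ ψ n)
    (hs : Summable ψ) :
    ∃ C : ℝ, 0 < C ∧ ∀ P : ℝ[X], P.natDegree ≤ d → ∀ A B : ℤ, A ≠ 0 → P.coeff j = A * ξ + B →
      ∀ N : ℕ, 1 ≤ N → |(A : ℝ)| ≤ (N : ℝ) ^ κ → ∀ c : ℝ, 0 < c →
      (((range N).filter (fun n : ℕ => Exc ((N : ℝ) ^ κ) c ψ (P.eval (n : ℝ)))).card : ℝ) ≤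
        C * (c + (N : ℝ) ^ (-κ)) * N := by
  set φ : ℕ → ℝ := fun n => ψ n + 1 / ((n : ℝ) + 1) ^ 2 with hφ
  have hφ1 : ∀ n, ψ n ≤ φ n := fun n => by
    simp only [hφ]
    have : (0 : ℝ) ≤ 1 / ((n : ℝ) + 1) ^ 2 := by positivity
    linarith
  have hφ2 : ∀ n : ℕ, 1 / ((n : ℝ) + 1) ^ 2 ≤ φ n := fun n => by
    simp only [hφ]
    have := hψ0 n
    linarith
  have hφ0 : ∀ n, 0 < φ n := fun n => lt_of_lt_of_le (by positivity) (hφ2 n)
  have hsφ : Summable φ := by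
    refine hs.add ?_
    have h1 : Summable (fun n : ℕ => 1 / ((n : ℝ)) ^ 2) :=
      Real.summable_one_div_nat_pow.2 (by norm_num)
    have h2 := (summable_nat_add_iff 1).2 h1
    refine h2.congr fun n => ?_
    push_cast
    rfl
  set S := ∑' n, φ n with hS
  have hS0 : 0 ≤ S := tsum_nonneg fun n => (hφ0 n).le
  set N₂ := max N₁ 256 with hN₂
  refine ⟨12 * S + 3 + (N₂ : ℝ) ^ κ, by positivity, fun P hP A B hA hPj N hN hAN c hc => ?_⟩
  have hN1 : (1 : ℝ) ≤ N := by exact_mod_cast hN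
  have hN0 : (0 : ℝ) < N := by linarith
  set y : ℝ := (N : ℝ) ^ κ with hy
  have hy1 : 1 ≤ y := Real.one_le_rpow hN1 hκ0.le
  have hy0 : 0 < y := by linarith
  have hyi : (N : ℝ) ^ (-κ) = 1 / y := by
    rw [Real.rpow_neg hN0.le, one_div]
  rw [hyi]
  rcases lt_or_ge N N₂ with hNN | hNN
  · have h1 : (((range N).filter (fun n : ℕ => Exc y c ψ (P.eval (n : ℝ)))).card : ℝ) ≤ N := by
      have := card_filter_le (range N) (fun n : ℕ => Exc y c ψ (P.eval (n : ℝ)))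
      rw [card_range] at this
      exact_mod_cast this
    refine h1.trans ?_
    have h2 : y ≤ (N₂ : ℝ) ^ κ := Real.rpow_le_rpow hN0.le (by exact_mod_cast hNN.le) hκ0.le
    have h3 : (1 : ℝ) ≤ (12 * S + 3 + (N₂ : ℝ) ^ κ) * (c + 1 / y) := by
      calc (1 : ℝ) = y * (1 / y) := by field_simp
        _ ≤ (12 * S + 3 + (N₂ : ℝ) ^ κ) * (c + 1 / y) := by
            apply mul_le_mul
            · linarith
            · linarith
            · positivity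
            · positivity
    nlinarith
  have hNN1 : N₁ ≤ N := (le_max_left _ _).trans hNN
  have hN256 : (256 : ℝ) ≤ N := by exact_mod_cast (le_max_right _ _).trans hNN
  set z : ℝ := (N : ℝ) ^ (1 / 8 : ℝ) with hz
  have hz2 : 2 ≤ z := by
    have h1 : (256 : ℝ) ^ (1 / 8 : ℝ) ≤ z := Real.rpow_le_rpow (by norm_num) hN256 (by norm_num)
    have h2 : (256 : ℝ) ^ (1 / 8 : ℝ) = 2 := by
      rw [show (256 : ℝ) = 2 ^ (8 : ℕ) by norm_num, ← Real.rpow_natCast, ← Real.rpow_mul (by norm_num)]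
      norm_num
    linarith
  have hzz : z ^ 2 = (N : ℝ) ^ (1 / 4 : ℝ) := by
    rw [hz, ← Real.rpow_natCast, ← Real.rpow_mul hN0.le]
    norm_num
  have hyz : y ^ 5 ≤ z := by
    rw [hy, hz, ← Real.rpow_natCast, ← Real.rpow_mul hN0.le]
    apply Real.rpow_le_rpow_of_exponent_le hN1
    push_cast
    linarith
  set c' := c + 1 / y with hc'
  have hc'0 : 0 < c' := by positivity
  have hc'y : 1 / y ≤ c' := by linarith
  set X := ⌊y⌋₊ with hX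
  have hXy : (X : ℝ) ≤ y := Nat.floor_le hy0.le
  have hsub : (range N).filter (fun n : ℕ => Exc y c ψ (P.eval (n : ℝ))) ⊆
      (Icc 1 X).biUnion fun q => (range N).filter
        (fun n : ℕ => dn ((q : ℝ) * P.eval (n : ℝ)) ≤ c' * φ q) := by
    intro n hn
    rw [mem_filter] at hn
    obtain ⟨q, h1, h2, h3⟩ := exc_dn hn.2
    rw [mem_biUnion]
    refine ⟨q, mem_Icc.2 ⟨h1, Nat.le_floor h2⟩, mem_filter.2 ⟨hn.1, h3.trans ?_⟩⟩
    apply mul_le_mul _ (hφ1 q) (hψ0 q) hc'0.le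
    have : 0 ≤ 1 / y := by positivity
    linarith
  have h1 : (((range N).filter (fun n : ℕ => Exc y c ψ (P.eval (n : ℝ)))).card : ℝ) ≤
      ∑ q ∈ Icc 1 X, (((range N).filter
        (fun n : ℕ => dn ((q : ℝ) * P.eval (n : ℝ)) ≤ c' * φ q)).card : ℝ) := by
    exact_mod_cast (card_le_card hsub).trans card_biUnion_le
  have h2 : ∀ q ∈ Icc 1 X, (((range N).filter
        (fun n : ℕ => dn ((q : ℝ) * P.eval (n : ℝ)) ≤ c' * φ q)).card : ℝ) ≤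
      12 * (c' * φ q) * N + 3 * (N : ℝ) ^ (1 - δ) := by
    intro q hq
    rw [mem_Icc] at hq
    have hq1 : (1 : ℝ) ≤ q := by exact_mod_cast hq.1
    have hqy : (q : ℝ) ≤ y := le_trans (by exact_mod_cast hq.2) hXy
    have hρ0 : 0 < c' * φ q := mul_pos hc'0 (hφ0 q)
    refine one_q hW P hP A B hA hPj N hNN1 q hq.1 _ hρ0 ?_
    rw [← hzz, div_mul_eq_mul_div, div_le_iff₀ (by positivity)]
    have h3 : 1 / (4 * y * (q : ℝ) ^ 2) ≤ c' * φ q := by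
      calc 1 / (4 * y * (q : ℝ) ^ 2) = 1 / y * (1 / (2 * (q : ℝ)) ^ 2) := by
            field_simp
            norm_num
        _ ≤ c' * (1 / ((q : ℝ) + 1) ^ 2) := by
            apply mul_le_mul hc'y _ (by positivity) hc'0.le
            apply one_div_le_one_div_of_le (by positivity)
            apply pow_le_pow_left₀ (by positivity)
            linarith
        _ ≤ c' * φ q := mul_le_mul_of_nonneg_left (hφ2 q) hc'0.le
    have h4 : z ^ 2 * (2 * (1 / (4 * y * (q : ℝ) ^ 2))) ≤ z ^ 2 * (2 * (c' * φ q)) := by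
      apply mul_le_mul_of_nonneg_left _ (by positivity)
      linarith
    refine le_trans ?_ h4
    rw [show z ^ 2 * (2 * (1 / (4 * y * (q : ℝ) ^ 2))) = z ^ 2 / (2 * y * (q : ℝ) ^ 2) by
      field_simp; norm_num]
    rw [le_div_iff₀ (by positivity)]
    have h5 : (q : ℝ) ^ 3 ≤ y ^ 3 := pow_le_pow_left₀ (by positivity) hqy 3
    calc (q : ℝ) * |(A : ℝ)| * (2 * y * (q : ℝ) ^ 2) = 2 * y * ((q : ℝ) ^ 3 * |(A : ℝ)|) := by ring
      _ ≤ 2 * y * (y ^ 3 * y) :=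
          mul_le_mul_of_nonneg_left (mul_le_mul h5 hAN (abs_nonneg _) (by positivity))
            (by positivity)
      _ = 2 * y ^ 5 := by ring
      _ ≤ 2 * z := by linarith
      _ ≤ z ^ 2 := by nlinarith
  refine h1.trans ((sum_le_sum h2).trans ?_)
  rw [sum_add_distrib, sum_const, Nat.card_Icc, nsmul_eq_mul]
  have h3 : ∑ q ∈ Icc 1 X, 12 * (c' * φ q) * (N : ℝ) ≤ 12 * S * c' * N := by
    have h4 : ∑ q ∈ Icc 1 X, φ q ≤ S := hsφ.sum_le_tsum _ fun n _ => (hφ0 n).le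
    calc ∑ q ∈ Icc 1 X, 12 * (c' * φ q) * (N : ℝ) = 12 * c' * N * ∑ q ∈ Icc 1 X, φ q := by
          rw [mul_sum]
          refine sum_congr rfl fun q _ => ?_
          ring
      _ ≤ 12 * c' * N * S := mul_le_mul_of_nonneg_left h4 (by positivity)
      _ = _ := by ring
  have h5 : ((X + 1 - 1 : ℕ) : ℝ) * (3 * (N : ℝ) ^ (1 - δ)) ≤ 3 * c' * N := by
    rw [Nat.add_sub_cancel]
    have h6 : y * (N : ℝ) ^ (1 - δ) ≤ 1 / y * N := by
      have h7 : y * (y * (N : ℝ) ^ (1 - δ)) ≤ N := by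
        rw [hy, ← Real.rpow_add hN0, ← Real.rpow_add hN0]
        calc (N : ℝ) ^ (κ + (κ + (1 - δ))) ≤ (N : ℝ) ^ (1 : ℝ) :=
              Real.rpow_le_rpow_of_exponent_le hN1 (by linarith)
          _ = N := Real.rpow_one _
      rw [one_div, inv_mul_eq_div, le_div_iff₀ hy0]
      linarith
    have h8 : (0 : ℝ) ≤ (N : ℝ) ^ (1 - δ) := by positivity
    calc (X : ℝ) * (3 * (N : ℝ) ^ (1 - δ)) ≤ y * (3 * (N : ℝ) ^ (1 - δ)) :=
          mul_le_mul_of_nonneg_right hXy (by positivity)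
      _ = 3 * (y * (N : ℝ) ^ (1 - δ)) := by ring
      _ ≤ 3 * (1 / y * N) := by linarith
      _ ≤ 3 * (c' * N) := by
          have := mul_le_mul_of_nonneg_right hc'y hN0.le
          linarith
      _ = 3 * c' * N := by ring
  have h9 : (0 : ℝ) ≤ (N₂ : ℝ) ^ κ * c' * N := by positivity
  calc ∑ q ∈ Icc 1 X, 12 * (c' * φ q) * (N : ℝ) + ((X + 1 - 1 : ℕ) : ℝ) * (3 * (N : ℝ) ^ (1 - δ))
      ≤ 12 * S * c' * N + 3 * c' * N := add_le_add h3 h5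
    _ ≤ 12 * S * c' * N + 3 * c' * N + (N₂ : ℝ) ^ κ * c' * N := by linarith
    _ = (12 * S + 3 + (N₂ : ℝ) ^ κ) * c' * N := by ring

open scoped Classical in
theorem divg {d j : ℕ} {ξ δ : ℝ} {N₁ : ℕ} (hW : Wy d j ξ δ N₁) (hj : 1 ≤ j) (hδ : 0 < δ)
    (κ : ℝ) (hκ1 : κ ≤ 1 / 40) (ψ : ℕ → ℝ) (h0 : ∀ q, 0 ≤ ψ q) (ha : Antitone ψ) (hd : ¬ Summable ψ) (Q₀ : ℕ) (η : ℝ)
    (hη : 0 < η) :
    ∃ Q N₂ : ℕ, ∀ P : ℝ[X], P.natDegree ≤ d → ∀ A B : ℤ, A ≠ 0 → P.coeff j = A * ξ + B →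
      ∀ N : ℕ, N₂ ≤ N → |(A : ℝ)| ≤ (N : ℝ) ^ κ →
      (((range N).filter (fun n : ℕ => ∀ q : ℕ, Q₀ ≤ q → q ≤ Q →
        ψ q ≤ dn ((q : ℝ) * P.eval (n : ℝ)))).card : ℝ) ≤ η * N := by
  set ε : ℝ := η / 24 with hε
  have hε0 : 0 < ε := by positivity
  obtain ⟨Q, hQ, hvol⟩ := LC.ks_small ψ h0 ha hd Q₀ (ENNReal.ofReal ε) (ENNReal.ofReal_pos.2 hε0)
  obtain ⟨M, hM, J, hJ, hcov⟩ := LC.cover (LC.KS ψ Q₀ Q) (LC.ks_closed ψ Q₀ Q) (fun y hy => hy.1)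
    ε hε0 hvol
  have hM0 : (0 : ℝ) < M := by exact_mod_cast hM
  obtain ⟨N₃, hN₃⟩ := exists_nat_ge ((M : ℝ) ^ (1 / δ))
  refine ⟨Q, max (max N₁ N₃) (M ^ 8 + 1), fun P hP A B hA hPj N hN hAN => ?_⟩
  have hNN1 : N₁ ≤ N := (le_max_left _ _).trans ((le_max_left _ _).trans hN)
  have hNN3 : N₃ ≤ N := (le_max_right _ _).trans ((le_max_left _ _).trans hN)
  have hNM : M ^ 8 + 1 ≤ N := (le_max_right _ _).trans hN
  have hN1 : (1 : ℝ) ≤ N := by exact_mod_cast (by omega : 1 ≤ N)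
  have hN0 : (0 : ℝ) < N := by linarith
  have hM4 : (M : ℝ) * |(A : ℝ)| ≤ (N : ℝ) ^ (1 / 4 : ℝ) := by
    have h1 : ((M : ℝ) ^ 8) ≤ N := by exact_mod_cast (by omega : M ^ 8 ≤ N)
    have h2 : (M : ℝ) ≤ (N : ℝ) ^ (1 / 8 : ℝ) := by
      calc (M : ℝ) = ((M : ℝ) ^ 8) ^ (1 / 8 : ℝ) := by
            rw [← Real.rpow_natCast, ← Real.rpow_mul hM0.le]
            norm_num
        _ ≤ (N : ℝ) ^ (1 / 8 : ℝ) := Real.rpow_le_rpow (by positivity) h1 (by norm_num)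
    have h3 : |(A : ℝ)| ≤ (N : ℝ) ^ (1 / 8 : ℝ) :=
      hAN.trans (Real.rpow_le_rpow_of_exponent_le hN1 (by linarith))
    calc (M : ℝ) * |(A : ℝ)| ≤ (N : ℝ) ^ (1 / 8 : ℝ) * (N : ℝ) ^ (1 / 8 : ℝ) :=
          mul_le_mul h2 h3 (abs_nonneg _) (by positivity)
      _ = (N : ℝ) ^ (1 / 4 : ℝ) := by
          rw [← Real.rpow_add hN0]
          norm_num
  have hMδ : (M : ℝ) ≤ (N : ℝ) ^ δ := by
    have h1 : ((M : ℝ) ^ (1 / δ)) ≤ N := hN₃.trans (by exact_mod_cast hNN3)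
    calc (M : ℝ) = ((M : ℝ) ^ (1 / δ)) ^ δ := by
          rw [← Real.rpow_mul hM0.le, one_div, inv_mul_cancel₀ hδ.ne', Real.rpow_one]
      _ ≤ (N : ℝ) ^ δ := Real.rpow_le_rpow (by positivity) h1 hδ.le
  have hsub : (range N).filter (fun n : ℕ => ∀ q : ℕ, Q₀ ≤ q → q ≤ Q →
        ψ q ≤ dn ((q : ℝ) * P.eval (n : ℝ))) ⊆
      J.biUnion fun i => (range N).filter fun n : ℕ =>
        dn (((1 : ℕ) : ℝ) * (P - C (((i : ℝ) + 1 / 2) / M)).eval (n : ℝ)) ≤ 1 / (2 * (M : ℝ)) := by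
    intro n hn
    rw [mem_filter] at hn
    set x := P.eval (n : ℝ) with hx
    have hfr : Int.fract x ∈ LC.KS ψ Q₀ Q := by
      refine ⟨⟨Int.fract_nonneg x, (Int.fract_lt_one x).le⟩, fun q hq1 hq2 => ?_⟩
      refine (hn.2 q hq1 hq2).trans (le_of_eq ?_)
      have h3 : (q : ℝ) * x = (q : ℝ) * Int.fract x + (((q : ℤ) * ⌊x⌋ : ℤ) : ℝ) := by
        have := Int.floor_add_fract x
        push_cast
        nlinarith
      rw [h3, LC.dn_add_int]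
    obtain ⟨i, hi, hiy⟩ := hcov _ hfr
    rw [mem_biUnion]
    refine ⟨i, hi, ?_⟩
    rw [mem_filter]
    refine ⟨hn.1, ?_⟩
    have h4 : ((1 : ℕ) : ℝ) * (P - C (((i : ℝ) + 1 / 2) / M)).eval (n : ℝ) =
        (Int.fract x - ((i : ℝ) + 1 / 2) / M) + (⌊x⌋ : ℝ) := by
      have := Int.floor_add_fract x
      rw [eval_sub, eval_C, ← hx]
      push_cast
      linarith
    rw [h4, LC.dn_add_int]
    have h5 : dn (Int.fract x - ((i : ℝ) + 1 / 2) / M) ≤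
        |Int.fract x - ((i : ℝ) + 1 / 2) / M - ((0 : ℤ) : ℝ)| := round_le _ _
    refine h5.trans ?_
    rw [Int.cast_zero, sub_zero]
    exact hiy
  have h1 : (((range N).filter (fun n : ℕ => ∀ q : ℕ, Q₀ ≤ q → q ≤ Q →
        ψ q ≤ dn ((q : ℝ) * P.eval (n : ℝ)))).card : ℝ) ≤
      ∑ i ∈ J, (((range N).filter fun n : ℕ =>
        dn (((1 : ℕ) : ℝ) * (P - C (((i : ℝ) + 1 / 2) / M)).eval (n : ℝ)) ≤
          1 / (2 * (M : ℝ))).card : ℝ) := by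
    exact_mod_cast (card_le_card hsub).trans card_biUnion_le
  have h2 : ∀ i ∈ J, (((range N).filter fun n : ℕ =>
        dn (((1 : ℕ) : ℝ) * (P - C (((i : ℝ) + 1 / 2) / M)).eval (n : ℝ)) ≤
          1 / (2 * (M : ℝ))).card : ℝ) ≤
      12 * (1 / (2 * (M : ℝ))) * N + 3 * (N : ℝ) ^ (1 - δ) := by
    intro i _
    refine one_q hW _ ?_ A B hA ?_ N hNN1 1 le_rfl _ (by positivity) ?_
    · rw [natDegree_sub_C]
      exact hP
    · rw [coeff_sub, coeff_C, if_neg (by omega), sub_zero]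
      exact hPj
    · refine le_trans (le_of_eq ?_) hM4
      push_cast
      field_simp
  refine h1.trans ((sum_le_sum h2).trans ?_)
  rw [sum_const, nsmul_eq_mul]
  have h3 : (0 : ℝ) ≤ 12 * (1 / (2 * (M : ℝ))) * N + 3 * (N : ℝ) ^ (1 - δ) := by positivity
  refine (mul_le_mul_of_nonneg_right hJ h3).trans ?_
  have h4 : (M : ℝ) * (N : ℝ) ^ (1 - δ) ≤ N := by
    calc (M : ℝ) * (N : ℝ) ^ (1 - δ) ≤ (N : ℝ) ^ δ * (N : ℝ) ^ (1 - δ) :=
          mul_le_mul_of_nonneg_right hMδ (by positivity)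
      _ = N := by
          rw [← Real.rpow_add hN0]
          simp
  calc ε * M * (12 * (1 / (2 * (M : ℝ))) * N + 3 * (N : ℝ) ^ (1 - δ))
      = 6 * ε * N + 3 * ε * (M * (N : ℝ) ^ (1 - δ)) := by
        field_simp
        ring
    _ ≤ 6 * ε * N + 3 * ε * N := by
        have := mul_le_mul_of_nonneg_left h4 (by positivity : (0 : ℝ) ≤ 3 * ε)
        linarith
    _ ≤ η * N := by
        rw [hε]
        nlinarith

end Pool.Agent.U363.PV
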